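import Pool.Agent.H46.FF.Final

set_option autoImplicit false

namespace Pool.Agent.Results.MP_30d976_nt.Linear

open Pool.Agent.H46.FF IntermediateField Filter Module

/-- Linear growth of the ramification index of the field of reciprocal roots of `L(χ_n, s)`. -/
theorem result (p : ℕ) [Fact p.Prime] (k K : Type) [Field k] [Finite k] [CharP k p] [Field K]
    [Algebra k K] [Algebra (RatFunc k) K] [IsScalarTower k (RatFunc k) K] [FunctionField k K]
    (F : ℕ → Type) [∀ n, Field (F n)] [∀ n, Algebra k (F n)] [∀ n, Algebra K (F n)]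
    [∀ n, IsScalarTower k K (F n)] (h : IsTower p k K F) :
    ∃ c : ℝ, 0 < c ∧ ∃ N : ℕ, ∀ n ≥ N, ∀ χ : (F n ≃ₐ[K] F n) →* ℂ_[p]ˣ, orderOf χ = p ^ n →
      ∃ P : Polynomial ℂ_[p], IsLPoly k {x : Place K | ∀ m, Unram (F m) x} χ P ∧
        c ≤ ((p : ℝ) ^ n)⁻¹ * ramIdx (adjoin ℚ_[p] {α | P.IsRoot α⁻¹}) := by
  obtain ⟨c, c0, N, hc⟩ := L_final h h.ram fun n x hx => by_contra fun e => hx ⟨n, e⟩
  refine ⟨c, c0, N + 1, fun n hn χ hχ => ?_⟩
  obtain ⟨P, a, b⟩ := hc n (by omega) χ hχ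
  have := (Fact.out : p.Prime).pos
  refine ⟨P, by simpa [Set.compl_ofPred] using a, ?_⟩
  rw [le_inv_mul_iff₀ (by positivity), mul_comm]
  exact (b (by omega)).1

end Pool.Agent.Results.MP_30d976_nt.Linear
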